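import Pool.Agent.MT100A.Stmts
import Pool.Agent.Helper90_MT100G.Tup
import Pool.Agent.Helper67_MTG.Ode
import Pool.Agent.Helper47_MT100G.Uni
import Pool.Agent.Helper43_MT100G.Bas
import Pool.Agent.Helper11_MTG.Per

/-! MT100A, module KEA: simultaneous continuation of the translates along a chain of discs inside a
half plane (the proof of `key` of Helper90_MT100G, for arbitrary systems, with the branch of the
logarithm). -/

set_option autoImplicit false

namespace Pool.Agent.MT100A.H47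

open Matrix Pool.Agent.MT100 Pool.Agent.MT100G Pool.Agent.MT100G.H90 Metric

variable {d : Type} [Fintype d] [DecidableEq d]

/-- lifting of a chain to a chain of tuples -/
theorem liftL (hO : OdeStmt) (hU : UniStmt) {ι : Type} {q : Polynomial ℤ}
    {B : Matrix d d (Polynomial ℤ)} (κ : ι → ℕ) (i : ι) (U : Set ℂ)
    (hreg : ∀ w ∈ U, w + κ i ≠ 0 ∧ ∀ j, Reg q (w + κ i - κ j))
    {x y : ℂ × ℝ × (ℂ → Matrix d d ℂ)} (h : Cnt q B U x y)
    (Y0 : ι → ℂ → Matrix d d ℂ) (L0 : ℂ → ℂ) (hY0 : Y0 i = x.2.2)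
    (hX : SolT q B κ (x.1 + κ i, x.2.1, Y0, L0)) :
    ∃ (Y : ι → ℂ → Matrix d d ℂ) (L : ℂ → ℂ), Y i = y.2.2 ∧
      SolT q B κ (y.1 + κ i, y.2.1, Y, L) ∧
      CntT q B κ (x.1 + κ i, x.2.1, Y0, L0) (y.1 + κ i, y.2.1, Y, L) ∧
      (∀ j, Cnt q B (sh U ((κ i : ℂ) - κ j)) (x.1 + κ i - κ j, x.2.1, Y0 j)
        (y.1 + κ i - κ j, y.2.1, Y j)) ∧
      ((∀ w ∈ U, 0 < (w + κ i).re) → (∀ w ∈ ball (x.1 + κ i) x.2.1, L0 w = Complex.log w) →
        ∀ w ∈ ball (y.1 + κ i) y.2.1, L w = Complex.log w) := by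
  induction h with
  | refl => exact ⟨Y0, L0, hY0, hX, Relation.ReflTransGen.refl,
      fun j => Relation.ReflTransGen.refl, fun _ h => h⟩
  | @tail b c hxb hbc ih =>
    obtain ⟨Y, L, hYi, hS, hC, hD, hG⟩ := ih
    obtain ⟨hb, hc, hbU, hcU, hne, hag⟩ := hbc
    obtain ⟨w₀, hw₀b, hw₀c⟩ := hne
    have hSj : ∀ j, SolOn q B (b.1 + κ i - κ j) b.2.1 (Y j) := fun j => hS.2.1 j
    have hinter : ∀ j, (ball (b.1 + κ i - κ j) b.2.1 ∩ ball (c.1 + κ i - κ j) c.2.1).Nonempty := by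
      intro j
      refine ⟨w₀ + (κ i - κ j), ?_, ?_⟩
      · rw [add_sub_assoc, mem_tr, add_sub_cancel_right]
        exact hw₀b
      · rw [add_sub_assoc, mem_tr, add_sub_cancel_right]
        exact hw₀c
    have hcreg : ∀ j, ∀ w ∈ ball (c.1 + κ i - κ j) c.2.1, Reg q w := by
      intro j w hw
      rw [add_sub_assoc, mem_tr] at hw
      have h1 := (hreg _ (hcU hw)).2 j
      have h2 : w - ((κ i : ℂ) - κ j) + κ i - κ j = w := by ring
      rwa [h2] at h1
    have key : ∀ j, ∃ Y' : ℂ → Matrix d d ℂ, SolOn q B (c.1 + κ i - κ j) c.2.1 Y' ∧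
        (∀ w ∈ ball (b.1 + κ i - κ j) b.2.1 ∩ ball (c.1 + κ i - κ j) c.2.1, Y j w = Y' w) ∧
        (j = i → Y' = c.2.2) := by
      intro j
      by_cases hji : j = i
      · subst hji
        refine ⟨c.2.2, ?_, ?_, fun _ => rfl⟩
        · rw [add_sub_cancel_right]
          exact hc
        · rw [add_sub_cancel_right, add_sub_cancel_right, hYi]
          exact hag
      · obtain ⟨Y', h1, h2⟩ := exists_match hO hU (hSj j) hc.pos (hcreg j) (hinter j)
        exact ⟨Y', h1, h2, fun h => absurd h hji⟩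
    choose Yc hYc1 hYc2 hYc3 using key
    -- the logarithm
    have hc0 : ∀ w ∈ ball (c.1 + κ i) c.2.1, w ≠ 0 := by
      intro w hw
      rw [mem_tr] at hw
      have h1 := (hreg _ (hcU hw)).1
      rwa [sub_add_cancel] at h1
    obtain ⟨Lc, hLc1, hLc2⟩ := exists_log hc.pos hc0
    have hVne : (ball (b.1 + κ i) b.2.1 ∩ ball (c.1 + κ i) c.2.1).Nonempty := by
      refine ⟨w₀ + κ i, ?_, ?_⟩
      · rw [mem_tr, add_sub_cancel_right]
        exact hw₀b
      · rw [mem_tr, add_sub_cancel_right]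
        exact hw₀c
    have hLdiff : DifferentiableOn ℂ L (ball (b.1 + κ i) b.2.1) := hS.2.2.2
    have hLexp : ∀ w ∈ ball (b.1 + κ i) b.2.1, w ≠ 0 ∧ Complex.exp (L w) = w := hS.2.2.1
    obtain ⟨m, hm⟩ := log_diff (isOpen_ball.inter isOpen_ball)
      ((convex_ball (b.1 + (κ i : ℂ)) b.2.1).inter
        (convex_ball (c.1 + (κ i : ℂ)) c.2.1)).isPreconnected hVne
      (hLdiff.mono Set.inter_subset_left) (hLc1.mono Set.inter_subset_right)
      (fun w hw => (hLexp w hw.1).2) (fun w hw => hLc2 w hw.2)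
    have hST : SolT q B κ (c.1 + κ i, c.2.1, Yc, fun w => Lc w + 2 * Real.pi * Complex.I * m) := by
      refine ⟨hc.pos, hYc1, fun w hw => ⟨hc0 w hw, ?_⟩, ?_⟩
      · show Complex.exp (Lc w + 2 * Real.pi * Complex.I * m) = w
        have h1 : Complex.exp (2 * Real.pi * Complex.I * m) = 1 :=
          Complex.exp_eq_one_iff.2 ⟨m, by ring⟩
        rw [Complex.exp_add, hLc2 w hw, h1, mul_one]
      · exact hLc1.add (differentiableOn_const _)
    refine ⟨Yc, fun w => Lc w + 2 * Real.pi * Complex.I * m, hYc3 i rfl, hST,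
      hC.tail ⟨hS, hST, hVne, fun w hw => ⟨fun j => ?_, ?_⟩⟩, fun j => (hD j).tail ?_,
      fun hpos hlog => ?_⟩
    · apply hYc2 j
      have h1 : ∀ a : ℂ × ℝ × (ℂ → Matrix d d ℂ), w ∈ ball (a.1 + κ i) a.2.1 →
          w - κ j ∈ ball (a.1 + κ i - κ j) a.2.1 := by
        intro a ha
        rw [mem_tr] at ha
        rw [add_sub_assoc, mem_tr]
        have h2 : w - κ j - ((κ i : ℂ) - κ j) = w - κ i := by ring
        rwa [h2]
      exact ⟨h1 b hw.1, h1 c hw.2⟩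
    · exact hm w hw
    · refine ⟨hSj j, hYc1 j, ?_, ?_, hinter j, hYc2 j⟩
      · intro w hw
        have hw' : w ∈ ball (b.1 + κ i - κ j) b.2.1 := hw
        rw [add_sub_assoc, mem_tr] at hw'
        exact hbU hw'
      · intro w hw
        have hw' : w ∈ ball (c.1 + κ i - κ j) c.2.1 := hw
        rw [add_sub_assoc, mem_tr] at hw'
        exact hcU hw'
    · -- the logarithm in the right half plane
      have hLb := hG hpos hlog
      have hre : ∀ w ∈ ball (c.1 + κ i) c.2.1, 0 < w.re := by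
        intro w hw
        rw [mem_tr] at hw
        have h1 := hpos _ (hcU hw)
        rwa [sub_add_cancel] at h1
      have hlogd : DifferentiableOn ℂ Complex.log (ball (c.1 + κ i) c.2.1) := by
        intro w hw
        exact (Complex.differentiableAt_log
          (Complex.mem_slitPlane_iff.2 (Or.inl (hre w hw)))).differentiableWithinAt
      obtain ⟨m', hm'⟩ := log_diff (V := ball (c.1 + κ i) c.2.1) isOpen_ball
        (convex_ball _ _).isPreconnected ⟨_, mem_ball_self hc.pos⟩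
        (L := fun w => Lc w + 2 * Real.pi * Complex.I * m) (L' := Complex.log)
        hST.2.2.2 hlogd (fun w hw => (hST.2.2.1 w hw).2)
        (fun w hw => Complex.exp_log (hc0 w hw))
      obtain ⟨v, hvb, hvc⟩ := hVne
      have h1 := hm v ⟨hvb, hvc⟩
      have h2 := hm' v hvc
      have h3 := hLb v hvb
      have h4 : (2 * Real.pi * Complex.I * m' : ℂ) = 0 := by
        have h5 : Lc v + 2 * Real.pi * Complex.I * m =
          Complex.log v + 2 * Real.pi * Complex.I * m' := h2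
        linear_combination h3 - h1 - h5
      intro w hw
      have h6 : Lc w + 2 * Real.pi * Complex.I * m =
        Complex.log w + 2 * Real.pi * Complex.I * m' := hm' w hw
      rw [h4, add_zero] at h6
      exact h6

/-- TU2 and TU3 for arbitrary systems, with the branch of the logarithm -/
theorem keyS (hO : OdeStmt) (hU : UniStmt) (hB : BasStmt) (hP : PerStmt) (F : Sys d)
    {ι : Type} [Fintype ι] (κ : ι → ℕ) (i : ι) (U : Set ℂ) (hUo : IsOpen U) (m' : ℝ)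
    (hm' : {w : ℂ | m' < w.re} ⊆ U) (g : Matrix d d ℂ) (hg : g ∈ mon F.H F.N F.q F.B U) :
    ∃ t ∈ tup F.H F.N F.q F.B κ, t.1 i = g ∧ ((∀ w ∈ U, 0 < (w + κ i).re) → t.2 = 0) ∧
      ∀ (j : ι) (m : ℝ),
      (∀ w ∈ U, m < (w + ((κ i : ℂ) - κ j)).re) → t.1 j ∈ mon F.H F.N F.q F.B {w | m < w.re} := by
  obtain ⟨R, hR0, hR, -⟩ := hB d F.H F.K F.N F.q F.B F.sys
  obtain ⟨Km, hKm⟩ : ∃ Km : ℕ, ∀ j, κ j ≤ Km := ⟨∑ j, κ j, fun j =>
    Finset.single_le_sum (f := κ) (fun _ _ => Nat.zero_le _) (Finset.mem_univ j)⟩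
  -- the bad set
  obtain ⟨Z, hZ⟩ : ∃ Z : Set ℂ, Z = {w : ℂ | w + κ i = 0} ∪
      ⋃ j : ι, {w : ℂ | ¬ Reg F.q (w + κ i - κ j)} := ⟨_, rfl⟩
  have hZf : Z.Finite := by
    rw [hZ]
    refine Set.Finite.union ?_ (Set.finite_iUnion fun j => ?_)
    · refine (Set.finite_singleton (-(κ i : ℂ))).subset ?_
      intro w hw
      exact eq_neg_of_add_eq_zero_left hw
    · have h1 : {w : ℂ | ¬ Reg F.q (w + κ i - κ j)} =
          (fun w : ℂ => w + κ i - κ j) ⁻¹' {w : ℂ | ¬ Reg F.q w} := rfl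
      rw [h1]
      refine (finite_bad F.sys.q0).preimage ?_
      intro a _ b _ hab
      have h2 : a + κ i - κ j = b + κ i - κ j := hab
      linear_combination h2
  have hZreg : ∀ w ∈ U \ Z, w + κ i ≠ 0 ∧ ∀ j, Reg F.q (w + κ i - κ j) := by
    intro w hw
    rw [hZ] at hw
    refine ⟨fun h => hw.2 (Or.inl h), fun j => ?_⟩
    by_contra h
    exact hw.2 (Or.inr (Set.mem_iUnion.2 ⟨j, h⟩))
  -- a large centre
  have hg' : ∀ᶠ c : ℝ in Filter.atTop, Cnt F.q F.B U ((c : ℂ), 1, YH F.H F.N)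
    ((c : ℂ), 1, fun w => YH F.H F.N w * g) := hg
  obtain ⟨c, ⟨hc1, hc2⟩, hc3, hc4⟩ := ((hg'.and (eventually_notMem hZf)).and
    ((Filter.eventually_ge_atTop (R + Km + 1)).and
      (Filter.eventually_ge_atTop (m' + 1)))).exists
  have hballU : ∀ c' : ℝ, m' + 1 ≤ c' → ball (c' : ℂ) 1 ⊆ U := by
    intro c' hc' w hw
    apply hm'
    have h1 := re_of_mem_ball hw
    rw [Complex.ofReal_re] at h1
    show m' < w.re
    linarith
  have hballR : ∀ (c' : ℝ) (ρ : ℝ), ρ ≤ 1 → R + 1 ≤ c' → ball (c' : ℂ) ρ ⊆ {w | R < w.re} := by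
    intro c' ρ hρ hc' w hw
    have h1 := re_of_mem_ball hw
    rw [Complex.ofReal_re] at h1
    show R < w.re
    linarith
  have hKm0 : (0 : ℝ) ≤ Km := Nat.cast_nonneg _
  have hκi : (0 : ℝ) ≤ κ i := Nat.cast_nonneg _
  obtain ⟨ε0, hε0, hper⟩ := hP d F.q F.B U hUo ((c : ℂ), 1, YH F.H F.N)
    ((c : ℂ), 1, fun w => YH F.H F.N w * g) hc1
    (hR _ _ one_pos (hballR c 1 le_rfl (by linarith))) (hballU c hc4) Z hZf
    (c : ℂ) (mem_ball_self one_pos) hc2 (c : ℂ) (mem_ball_self one_pos) hc2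
  obtain ⟨ε, hε, hεε0, hε1⟩ : ∃ ε : ℝ, 0 < ε ∧ ε ≤ ε0 ∧ ε ≤ 1 :=
    ⟨min ε0 1, lt_min hε0 one_pos, min_le_left _ _, min_le_right _ _⟩
  have hchain := hper ε ε hε hεε0 hε hεε0
  obtain ⟨C, hC⟩ : ∃ C : ℝ, C = c + κ i := ⟨_, rfl⟩
  have hCc : (C : ℂ) = (c : ℂ) + κ i := by
    rw [hC]
    push_cast
    ring
  have hCR : R + Km + 1 ≤ C := by
    rw [hC]
    linarith
  have hb1 : SolT F.q F.B κ ((C : ℂ), ε, (fun _ => YH F.H F.N), Complex.log) := by
    rw [← bT_one]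
    exact base_T hR0 hR κ Km hKm _ (fun _ => by rw [Matrix.det_one]; exact isUnit_one) 0 hε hε1
      hCR
  rw [hCc] at hb1
  obtain ⟨Y, L, hYi, hS, hT, hcomp, hLog⟩ := liftL hO hU κ i (U \ Z) hZreg hchain
    (fun _ => YH F.H F.N) Complex.log rfl hb1
  simp only at hYi hS hT hcomp hLog
  have hcj : ∀ j : ι, (((C - κ j : ℝ) : ℝ) : ℂ) = (c : ℂ) + κ i - κ j := by
    intro j
    rw [Complex.ofReal_sub, hCc]
    push_cast
    ring
  have hCj : ∀ j : ι, R + 1 ≤ C - κ j := by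
    intro j
    have h1 : (κ j : ℝ) ≤ Km := by exact_mod_cast hKm j
    linarith
  have hYHj : ∀ j : ι, SolOn F.q F.B ((c : ℂ) + κ i - κ j) ε (YH F.H F.N) := by
    intro j
    rw [← hcj]
    exact hR _ _ hε (hballR _ _ hε1 (hCj j))
  have ht : ∀ j : ι, ∃ tj : Matrix d d ℂ, IsUnit tj.det ∧
      ∀ w ∈ ball ((c : ℂ) + κ i - κ j) ε, Y j w = YH F.H F.N w * tj := by
    intro j
    exact uni_sol hU (hYHj j) (hS.2.1 j) (ball ((c : ℂ) + κ i - κ j) ε) isOpen_ball
      (convex_ball _ _) le_rfl le_rfl ⟨_, mem_ball_self hε⟩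
  choose t htu ht using ht
  have hti : t i = g := by
    have hmem : (c : ℂ) + κ i - κ i ∈ ball ((c : ℂ) + κ i - κ i) ε := mem_ball_self hε
    have h1 := ht i _ hmem
    rw [hYi] at h1
    have h2 := (hYHj i).det _ hmem
    have h3 := congrArg (fun M => (YH F.H F.N ((c : ℂ) + κ i - κ i))⁻¹ * M) h1
    simp only at h3
    rw [← Matrix.mul_assoc, ← Matrix.mul_assoc, Matrix.nonsing_inv_mul _ h2, Matrix.one_mul,
      Matrix.one_mul] at h3
    exact h3.symm
  -- the logarithm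
  obtain ⟨k, hk⟩ := log_diff (V := ball ((c : ℂ) + κ i) ε) isOpen_ball
    (convex_ball _ _).isPreconnected ⟨_, mem_ball_self hε⟩ (L := L) (L' := Complex.log)
    hS.2.2.2 hb1.2.2.2 (fun w hw => (hS.2.2.1 w hw).2) (fun w hw => (hb1.2.2.1 w hw).2)
  have hsub : ball ((C : ℂ)) ε ⊆ ball ((C : ℂ)) 1 := ball_subset_ball hε1
  have hone : ∀ _j : ι, IsUnit ((1 : Matrix d d ℂ)).det := fun _ => by
    rw [Matrix.det_one]
    exact isUnit_one
  have hB1 := base_T hR0 hR κ Km hKm (fun _ => 1) hone 0 one_pos le_rfl hCR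
  have hBt := base_T hR0 hR κ Km hKm t htu k one_pos le_rfl hCR
  have hfinal : CntT F.q F.B κ (bT F.H F.N (fun _ => 1) 0 1 C) (bT F.H F.N t k 1 C) := by
    have e1 : StpT F.q F.B κ (bT F.H F.N (fun _ => 1) 0 1 C)
        ((c : ℂ) + κ i, ε, (fun _ => YH F.H F.N), Complex.log) := by
      refine ⟨hB1, hb1, ⟨(C : ℂ), mem_ball_self one_pos, ?_⟩, fun w _ => ?_⟩
      · rw [← hCc]
        exact mem_ball_self hε
      · rw [bT_one]
        exact ⟨fun j => rfl, rfl⟩
    have e2 : StpT F.q F.B κ ((c : ℂ) + κ i, ε, Y, L) (bT F.H F.N t k 1 C) := by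
      refine ⟨hS, hBt, ⟨(C : ℂ), ?_, mem_ball_self one_pos⟩, fun w hw => ⟨fun j => ?_, ?_⟩⟩
      · rw [← hCc]
        exact mem_ball_self hε
      · apply ht j
        have h1 : w ∈ ball ((c : ℂ) + κ i) ε := hw.1
        rw [sub_eq_add_neg ((c : ℂ) + κ i), mem_tr, sub_neg_eq_add, sub_add_cancel]
        exact h1
      · exact hk w hw.1
    exact (Relation.ReflTransGen.head e1 hT).tail e2
  have hk0 : (∀ w ∈ U, 0 < (w + κ i).re) → k = 0 := by
    intro hpos
    have h1 := hLog (fun w hw => hpos w hw.1) (fun w _ => trivial) ((c : ℂ) + κ i) (mem_ball_self hε)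
    have h2 := hk ((c : ℂ) + κ i) (mem_ball_self hε)
    rw [h1] at h2
    have h3 : (2 * Real.pi * Complex.I * k : ℂ) = 0 := by linear_combination -h2
    have h4 : (2 * Real.pi * Complex.I : ℂ) ≠ 0 := Complex.two_pi_I_ne_zero
    have h5 : (k : ℂ) = 0 := (mul_eq_zero.1 h3).resolve_left h4
    exact_mod_cast h5
  refine ⟨(t, k), tup_of_one hR0 hR κ Km hKm t htu k hCR hfinal, hti, hk0, fun j m hjm => ?_⟩
  -- the components
  have hmm : m ≤ m' + (κ i - κ j) := by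
    apply le_of_forall_pos_lt_add
    intro δ hδ
    have h1 := hjm ((m' + δ : ℝ) : ℂ) (hm' (by
      show m' < (((m' + δ : ℝ) : ℂ)).re
      rw [Complex.ofReal_re]
      linarith))
    have h2 : (((m' + δ : ℝ) : ℂ) + ((κ i : ℂ) - κ j)).re = m' + δ + (κ i - κ j) := by simp
    rw [h2] at h1
    linarith
  have hCm : m + 1 ≤ C - κ j := by
    rw [hC]
    linarith
  have hbm : ∀ c' : ℝ, m + 1 ≤ c' → ball (c' : ℂ) 1 ⊆ {w | m < w.re} := by
    intro c' hc' w hw
    have h1 := re_of_mem_ball hw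
    rw [Complex.ofReal_re] at h1
    show m < w.re
    linarith
  refine mon_of_one hR {w | m < w.re} (max (R + 1) (m + 1))
    (fun c' hc' => ⟨hballR c' 1 le_rfl ((le_max_left _ _).trans hc'),
      hbm c' ((le_max_right _ _).trans hc')⟩) (htu j) (c := C - κ j)
    (max_le (hCj j) hCm) ?_
  have hmono : ∀ x y, Cnt F.q F.B (sh (U \ Z) ((κ i : ℂ) - κ j)) x y →
      Cnt F.q F.B {w | m < w.re} x y := by
    intro x y hxy
    refine Relation.ReflTransGen.mono ?_ _ _ hxy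
    intro a b hab
    have hs : sh (U \ Z) ((κ i : ℂ) - κ j) ⊆ {w | m < w.re} := by
      intro w hw
      have h1 := hjm _ hw.1
      rw [sub_add_cancel] at h1
      exact h1
    exact ⟨hab.1, hab.2.1, hab.2.2.1.trans hs, hab.2.2.2.1.trans hs, hab.2.2.2.2⟩
  have hmid := hmono _ _ (hcomp j)
  have hsol1 : SolOn F.q F.B (((C - κ j : ℝ) : ℝ) : ℂ) 1 (YH F.H F.N) :=
    hR _ _ one_pos (hballR _ _ le_rfl (hCj j))
  have hball1 : ball ((((C - κ j : ℝ) : ℝ) : ℂ)) ε ⊆ {w | m < w.re} :=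
    (ball_subset_ball hε1).trans (hbm _ hCm)
  have e1 : Stp F.q F.B {w | m < w.re} ((((C - κ j : ℝ) : ℝ) : ℂ), 1, YH F.H F.N)
      ((c : ℂ) + κ i - κ j, ε, YH F.H F.N) := by
    refine ⟨hsol1, hYHj j, hbm _ hCm, ?_, ⟨(((C - κ j : ℝ) : ℝ) : ℂ), mem_ball_self one_pos, ?_⟩,
      fun w _ => rfl⟩
    · rw [hcj] at hball1
      exact hball1
    · rw [hcj]
      exact mem_ball_self hε
  have e2 : Stp F.q F.B {w | m < w.re} ((c : ℂ) + κ i - κ j, ε, Y j)
      ((((C - κ j : ℝ) : ℝ) : ℂ), 1, fun w => YH F.H F.N w * t j) := by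
    refine ⟨hS.2.1 j, SolOn.mul_const hsol1 (htu j), ?_, hbm _ hCm,
      ⟨(((C - κ j : ℝ) : ℝ) : ℂ), ?_, mem_ball_self one_pos⟩, fun w hw => ht j w hw.1⟩
    · rw [hcj] at hball1
      exact hball1
    · rw [hcj]
      exact mem_ball_self hε
  exact (Relation.ReflTransGen.head e1 hmid).tail e2

/-- KEA -/
theorem kea : KeaStmt := by
  intro d _ _ F ι _ κ i m g hg
  have hopen : IsOpen {w : ℂ | m < w.re} := isOpen_lt continuous_const Complex.continuous_re
  obtain ⟨t, ht, hti, hlog, hcomp⟩ := keyS Pool.Agent.MT100G.H67.ode Pool.Agent.MT100G.H47.uni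
    Pool.Agent.MT100G.H43.bas Pool.Agent.MT100G.H11.per F κ i {w | m < w.re} hopen m le_rfl g hg
  refine ⟨t, ht, hti, fun hm => hlog ?_, fun j => hcomp j (m + κ i - κ j) ?_⟩
  · intro w hw
    have hw' : m < w.re := hw
    have h1 : (w + (κ i : ℂ)).re = w.re + κ i := by simp
    rw [h1]
    linarith
  · intro w hw
    have hw' : m < w.re := hw
    have h1 : (w + ((κ i : ℂ) - κ j)).re = w.re + (κ i - κ j) := by simp
    rw [h1]
    linarith

end Pool.Agent.MT100A.H47
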